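import Pool.Agent.P8H39.MH.Stm

/-!
# Packages CONV and EXIT for helper39's project on the magnitude homology of arrangements
(helper72)
-/

set_option autoImplicit false

namespace Pool.Agent.P8H72.MH

open Pool.Agent.P8H39.MH

variable {ι : Type}

theorem stp_lt {u v : ι → ℕ} (h : stp u v) : u < v :=
  lt_of_le_of_ne (fun i => (h.2 i).1) h.1

theorem chain_pw {l : List (ι → ℕ)} (h : List.IsChain stp l) : l.Pairwise (· < ·) :=
  List.isChain_iff_pairwise.1 (h.imp (fun _ _ => stp_lt))

theorem conv_aux (w : ι → ℕ) : ∀ (l₁ l₂ : List (ι → ℕ)), l₁.Sublist l₂ → ∀ (u₁ u₂ : ι → ℕ),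
    u₁ ≤ u₂ → List.IsChain stp (u₁ :: (l₁ ++ [w])) → (u₂ :: (l₂ ++ [w])).Pairwise (· < ·) →
    List.IsChain stp (u₂ :: (l₂ ++ [w])) := by
  intro l₁ l₂ h
  induction h with
  | slnil =>
    intro u₁ u₂ hu h1 h2
    rw [List.nil_append, List.isChain_cons_cons] at h1 ⊢
    refine ⟨⟨?_, fun i => ?_⟩, List.isChain_singleton _⟩
    · have := (List.pairwise_cons.1 h2).1 w (by simp)
      exact this.ne
    · have h3 : u₂ < w := (List.pairwise_cons.1 h2).1 w (by simp)
      refine ⟨h3.le i, le_trans (h1.1.2 i).2 (Nat.succ_le_succ (hu i))⟩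
  | @cons l₁ l₂ a hs ih =>
    intro u₁ u₂ hu h1 h2
    rw [List.cons_append] at h2 ⊢
    obtain ⟨h3, h4⟩ := List.pairwise_cons.1 h2
    have h5 : u₂ < a := h3 a (by simp)
    rw [List.isChain_cons_cons]
    refine ⟨⟨h5.ne, fun i => ⟨h5.le i, ?_⟩⟩, ih u₁ a (le_trans hu h5.le) h1 h4⟩
    -- the head of `l₁ ++ [w]`
    obtain ⟨b, t, hbt⟩ : ∃ b t, l₁ ++ [w] = b :: t := by
      cases l₁ with
      | nil => exact ⟨w, [], rfl⟩
      | cons b t => exact ⟨b, t ++ [w], rfl⟩
    have h6 : b ∈ l₂ ++ [w] := by
      have h7 : (l₁ ++ [w]).Sublist (l₂ ++ [w]) := hs.append (List.Sublist.refl _)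
      apply h7.subset
      rw [hbt]
      simp
    have h7 : a < b := (List.pairwise_cons.1 h4).1 b h6
    rw [hbt, List.isChain_cons_cons] at h1
    exact le_trans (h7.le i) (le_trans (h1.1.2 i).2 (Nat.succ_le_succ (hu i)))
  | @cons_cons l₁ l₂ a hs ih =>
    intro u₁ u₂ hu h1 h2
    rw [List.cons_append] at h1 h2 ⊢
    obtain ⟨h3, h4⟩ := List.pairwise_cons.1 h2
    have h5 : u₂ < a := h3 a (by simp)
    rw [List.isChain_cons_cons] at h1 ⊢
    refine ⟨⟨h5.ne, fun i => ⟨h5.le i, ?_⟩⟩, ih a a le_rfl h1.2 h4⟩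
    exact le_trans (h1.1.2 i).2 (Nat.succ_le_succ (hu i))

theorem conv_mm (A : Set (ι → ℕ)) (u w : ι → ℕ) : Conv (MM A u w) := by
  rintro l₁ l₂ l₃ ⟨h1, h1'⟩ ⟨h3, h3'⟩ h12 h23
  refine ⟨?_, fun v hv => h3' v (h23.subset hv)⟩
  apply conv_aux w l₁ l₂ h12 u u le_rfl h1
  exact (chain_pw h3).sublist ((h23.append (List.Sublist.refl _)).cons_cons u)

/-- CONV. -/
theorem conv : S_CONV := fun ι _ _ A u w => conv_mm A u w

/-! ### Lists -/

section lists

variable {α : Type}

theorem split_filter (R : α → α → Prop) (P : α → Bool) (hP : ∀ x y, R x y → P x = true → P y = true) :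
    ∀ l : List α, l.Pairwise R → l = l.filter (fun x => !P x) ++ l.filter P := by
  intro l
  induction l with
  | nil => intro _; rfl
  | cons a l ih =>
    intro h
    obtain ⟨h1, h2⟩ := List.pairwise_cons.1 h
    by_cases ha : P a = true
    · have h3 : ∀ x ∈ a :: l, P x = true := by
        intro x hx
        rcases List.mem_cons.1 hx with rfl | hx
        · exact ha
        · exact hP a x (h1 x hx) ha
      have h4 : (a :: l).filter P = a :: l := List.filter_eq_self.2 h3
      have h5 : (a :: l).filter (fun x => !P x) = [] := by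
        rw [List.filter_eq_nil_iff]
        intro x hx
        rw [h3 x hx]
        simp
      rw [h4, h5, List.nil_append]
    · have ha' : P a = false := by simpa using ha
      rw [List.filter_cons_of_neg ha, List.filter_cons_of_pos (by rw [ha']; rfl), List.cons_append,
        ← ih h2]

open Classical in
/-- Different from `c`. -/
noncomputable def nq (c x : α) : Bool := decide (x ≠ c)

theorem nq_iff (c x : α) : nq c x = true ↔ x ≠ c := by
  classical
  unfold nq
  exact decide_eq_true_iff

theorem nq_self (c : α) : ¬ nq c c = true := by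
  rw [nq_iff]
  exact fun h => h rfl

theorem last_filter [PartialOrder α] (c : α) :
    ∀ l : List α, l.Pairwise (· < ·) → (∀ x ∈ l, x ≤ c) →
      l = l.filter (nq c) ∨ l = l.filter (nq c) ++ [c] := by
  intro l
  induction l with
  | nil => intro _ _; exact Or.inl rfl
  | cons a l ih =>
    intro h hc
    obtain ⟨h1, h2⟩ := List.pairwise_cons.1 h
    by_cases ha : a = c
    · have h3 : l = [] := by
        rw [List.eq_nil_iff_forall_not_mem]
        intro x hx
        have h4 := h1 x hx
        rw [ha] at h4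
        exact absurd (hc x (List.mem_cons_of_mem _ hx)) (not_le_of_gt h4)
      subst h3
      subst ha
      right
      rw [List.filter_cons_of_neg (nq_self a)]
      rfl
    · rw [List.filter_cons_of_pos ((nq_iff _ _).2 ha)]
      rcases ih h2 (fun x hx => hc x (List.mem_cons_of_mem _ hx)) with h3 | h3
      · left
        rw [← h3]
      · right
        rw [List.cons_append, ← h3]

theorem len_filter_ne (c : α) (l : List α) (h : l.Nodup) :
    l.length ≤ (l.filter (nq c)).length + 1 := by
  induction l with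
  | nil => simp
  | cons a l ih =>
    obtain ⟨h1, h2⟩ := List.nodup_cons.1 h
    by_cases ha : a = c
    · subst ha
      have h3 : l.filter (nq a) = l := by
        rw [List.filter_eq_self]
        intro x hx
        have : x ≠ a := fun h3 => h1 (h3 ▸ hx)
        exact (nq_iff _ _).2 this
      rw [List.filter_cons_of_neg (nq_self a), h3, List.length_cons]
    · rw [List.filter_cons_of_pos ((nq_iff _ _).2 ha), List.length_cons, List.length_cons]
      have := ih h2
      omega

end lists

/-! ### The toggle -/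

section toggle

variable [DecidableEq ι]

/-- The reflection: `e` on `Q` and `u` off `Q`. -/
def mr (u : ι → ℕ) (Q : Finset ι) (e : ι → ℕ) : ι → ℕ := fun i => if i ∈ Q then e i else u i

open Classical in
/-- The entries that leave the localization. -/
noncomputable def ex (u : ι → ℕ) (Q : Finset ι) (x : ι → ℕ) : Bool :=
  decide (∃ i, i ∉ Q ∧ u i < x i)

theorem ex_iff (u : ι → ℕ) (Q : Finset ι) (x : ι → ℕ) :
    ex u Q x = true ↔ ∃ i, i ∉ Q ∧ u i < x i := by
  classical
  unfold ex
  exact decide_eq_true_iff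

/-- The invariant of the toggle. -/
noncomputable def fv (u w : ι → ℕ) (Q : Finset ι) (l : List (ι → ℕ)) :
    List (ι → ℕ) × List (ι → ℕ) :=
  ((l.filter (fun x => !ex u Q x)).filter (nq (mr u Q ((l.filter (ex u Q)).headD w))),
    l.filter (ex u Q))

def rk (z : List (ι → ℕ) × List (ι → ℕ)) : ℕ := 2 * z.2.length + z.1.length

theorem fv_sub (u w : ι → ℕ) (Q : Finset ι) (l₁ l₂ : List (ι → ℕ)) (h : l₁.Sublist l₂)
    (hn : l₂.Nodup) : fv u w Q l₁ = fv u w Q l₂ ∨ rk (fv u w Q l₁) < rk (fv u w Q l₂) := by
  classical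
  have hq : (l₁.filter (ex u Q)).Sublist (l₂.filter (ex u Q)) := h.filter _
  have hp : (l₁.filter (fun x => !ex u Q x)).Sublist (l₂.filter (fun x => !ex u Q x)) := h.filter _
  by_cases hl : (l₁.filter (ex u Q)).length = (l₂.filter (ex u Q)).length
  · have hqe := hq.eq_of_length hl
    have hp2 : (fv u w Q l₁).1.Sublist (fv u w Q l₂).1 := by
      unfold fv
      rw [hqe]
      exact hp.filter _
    by_cases hl2 : (fv u w Q l₁).1.length = (fv u w Q l₂).1.length
    · left
      exact Prod.ext (hp2.eq_of_length hl2) hqe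
    · right
      have h3 := hp2.length_le
      have h4 : (fv u w Q l₁).2.length = (fv u w Q l₂).2.length := hl
      unfold rk
      omega
  · right
    have h3 := hq.length_le
    have h4 := hp.length_le
    have h5 : (fv u w Q l₁).1.length ≤ (l₁.filter (fun x => !ex u Q x)).length :=
      List.length_filter_le _ _
    have h6 : (l₂.filter (fun x => !ex u Q x)).length ≤ (fv u w Q l₂).1.length + 1 :=
      len_filter_ne _ _ (hn.filter _)
    have h7 : (fv u w Q l₁).2 = l₁.filter (ex u Q) := rfl
    have h8 : (fv u w Q l₂).2 = l₂.filter (ex u Q) := rfl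
    unfold rk
    rw [h7, h8]
    omega

variable {L : Set (ι → SignType)} {C : ι → SignType} {u w : ι → ℕ} {Q : Finset ι}

theorem xs_ne (hC : ∀ i, C i ≠ 0) (v : ι → ℕ) (i : ι) : xs C v i ≠ 0 := by
  unfold xs
  split_ifs
  · exact hC i
  · intro h
    apply hC i
    rw [← neg_neg (C i), h]
    rfl

theorem mr_adm (hL : COS L) (hC : ∀ i, C i ≠ 0) (hz : zro (xs C u) Q ∈ L) {e : ι → ℕ}
    (he : e ∈ adm L C) : mr u Q e ∈ adm L C := by
  have h := hL.comp _ hz _ he
  have h2 : xs C (mr u Q e) = Pool.Agent.P8H39.MH.cmp (zro (xs C u) Q) (xs C e) := by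
    funext i
    unfold Pool.Agent.P8H39.MH.cmp zro
    by_cases hi : i ∈ Q
    · rw [if_pos hi, if_pos rfl]
      unfold xs mr
      rw [if_pos hi]
    · rw [if_neg hi, if_neg (xs_ne hC u i)]
      unfold xs mr
      rw [if_neg hi]
  show xs C (mr u Q e) ∈ L
  rw [h2]
  exact h

/-- The steps around the toggled entry. -/
theorem step_iff {x e : ι → ℕ} (hx : ∀ i, i ∉ Q → x i = u i) (he : ex u Q e = true)
    (hxm : x ≠ mr u Q e) : stp x e ↔ stp x (mr u Q e) ∧ stp (mr u Q e) e := by
  obtain ⟨j, hj, hj2⟩ := (ex_iff u Q e).1 he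
  constructor
  · intro h
    refine ⟨⟨hxm, fun i => ?_⟩, ⟨?_, fun i => ?_⟩⟩
    · unfold mr
      by_cases hi : i ∈ Q
      · rw [if_pos hi]
        exact h.2 i
      · rw [if_neg hi, hx i hi]
        exact ⟨le_rfl, Nat.le_succ _⟩
    · intro h1
      have h2 := congrFun h1 j
      unfold mr at h2
      rw [if_neg hj] at h2
      omega
    · unfold mr
      by_cases hi : i ∈ Q
      · rw [if_pos hi]
        exact ⟨le_rfl, Nat.le_succ _⟩
      · rw [if_neg hi, ← hx i hi]
        exact h.2 i
  · rintro ⟨h1, h2⟩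
    refine ⟨?_, fun i => ⟨le_trans (h1.2 i).1 (h2.2 i).1, ?_⟩⟩
    · rintro rfl
      have := hx j hj
      omega
    · by_cases hi : i ∈ Q
      · have h3 := (h1.2 i).2
        unfold mr at h3
        rw [if_pos hi] at h3
        exact h3
      · have h3 := (h2.2 i).2
        unfold mr at h3
        rw [if_neg hi, ← hx i hi] at h3
        exact h3

end toggle

/-- EXIT. -/
theorem exit : S_EXIT := by
  intro ι _ _ L hL C hCL hC u w hu hw Q hQ hz hex M _ k
  classical
  let S : Set (List (ι → ℕ)) := {τ | τ ∈ MM (adm L C) u w ∧ u + ind Q ≤ τ.headD w}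
  -- elementary facts on the members
  have hpw : ∀ τ ∈ S, (u :: (τ ++ [w])).Pairwise (· < ·) := fun τ hτ => chain_pw hτ.1.1
  have hnd : ∀ τ ∈ S, τ.Nodup := by
    intro τ hτ
    have h1 := (List.pairwise_cons.1 (hpw τ hτ)).2
    have h2 := (List.pairwise_append.1 h1).1
    exact h2.imp (fun h => h.ne)
  have hge : ∀ τ ∈ S, ∀ x ∈ τ ++ [w], u + ind Q ≤ x := by
    intro τ hτ x hx
    have h1 := (List.pairwise_cons.1 (hpw τ hτ)).2
    have h0 := hτ.2
    cases τ with
    | nil =>
      have : x = w := by simpa using hx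
      rw [this]
      exact h0
    | cons a τ =>
      have h0' : u + ind Q ≤ a := h0
      rw [List.cons_append] at h1 hx
      rcases List.mem_cons.1 hx with rfl | hx
      · exact h0'
      · exact le_trans h0' ((List.pairwise_cons.1 h1).1 x hx).le
  have hhead : ∀ τ, (∀ x ∈ τ ++ [w], u + ind Q ≤ x) → u + ind Q ≤ τ.headD w := by
    intro τ h
    cases τ with
    | nil => exact h w (by simp)
    | cons a τ => exact h a (by simp)
  have hconv : Conv S := by
    intro l₁ l₂ l₃ h1 h3 h12 h23
    refine ⟨conv_mm _ _ _ l₁ l₂ l₃ h1.1 h3.1 h12 h23, hhead l₂ ?_⟩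
    intro x hx
    apply hge l₃ h3
    exact (h23.append (List.Sublist.refl _)).subset hx
  show Ex M S k
  refine cluster hconv (fv u w Q) rk ?_ ?_ ?_
  · intro l hl m hm hD
    exact fv_sub u w Q m l (D_ne_zero hD).1 (hnd l hl)
  swap
  · intro l₁ h1 l₂ h2 h12
    rcases fv_sub u w Q l₁ l₂ h12 (hnd l₂ h2) with h | h
    · rw [h]
    · exact h.le
  rintro ⟨p, q⟩
  by_cases hne : ∃ l₀ ∈ S, fv u w Q l₀ = (p, q)
  swap
  · have : {l | l ∈ S ∧ fv u w Q l = (p, q)} = (∅ : Set (List (ι → ℕ))) := by
      ext l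
      constructor
      · rintro ⟨h1, h2⟩
        exact absurd ⟨l, h1, h2⟩ hne
      · rintro ⟨⟩
    rw [this]
    exact ex_empty k
  obtain ⟨l₀, hl₀, hf₀⟩ := hne
  set e : ι → ℕ := q.headD w with he
  set m : ι → ℕ := mr u Q e with hm
  -- structure of the members of the fibre
  have hup : ∀ x y : ι → ℕ, x < y → ex u Q x = true → ex u Q y = true := by
    intro x y hxy hx
    rw [ex_iff] at hx ⊢
    obtain ⟨i, hi, hi2⟩ := hx
    exact ⟨i, hi, lt_of_lt_of_le hi2 (hxy.le i)⟩
  have hpart : ∀ l ∈ S, fv u w Q l = (p, q) → l = p ++ q ∨ l = p ++ m :: q := by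
    intro l hl hf
    have h1 := (List.pairwise_append.1 (List.pairwise_cons.1 (hpw l hl)).2).1
    have h2 := split_filter (· < ·) (ex u Q) hup l h1
    have hq : l.filter (ex u Q) = q := congrArg Prod.snd hf
    have hp : (l.filter (fun x => !ex u Q x)).filter
        (nq (mr u Q ((l.filter (ex u Q)).headD w))) = p := congrArg Prod.fst hf
    rw [hq, ← he, ← hm] at hp
    have hle : ∀ x ∈ l.filter (fun x => !ex u Q x), x ≤ m := by
      intro x hx
      obtain ⟨hx1, hx2⟩ := List.mem_filter.1 hx
      have hx3 : ¬ ∃ i, i ∉ Q ∧ u i < x i := by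
        rw [← ex_iff]
        simpa using hx2
      push Not at hx3
      have hxe : x ≤ e := by
        have h3 := (List.pairwise_cons.1 (hpw l hl)).2
        rw [h2, hq, List.append_assoc] at h3
        have h4 := (List.pairwise_append.1 h3).2.2 x hx e
        refine (h4 ?_).le
        rw [he]
        cases q with
        | nil => simp
        | cons b q => simp
      intro i
      show x i ≤ mr u Q e i
      unfold mr
      by_cases hi : i ∈ Q
      · rw [if_pos hi]
        exact hxe i
      · rw [if_neg hi]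
        exact hx3 i hi
    rcases last_filter m _ (h1.filter _) hle with h3 | h3
    · left
      rw [hp] at h3
      rw [h2, hq, h3]
    · right
      rw [hp] at h3
      rw [h2, hq, h3]
      simp
  -- facts on the fibre
  have hqf : ∀ x ∈ q, ex u Q x = true := by
    intro x hx
    have hq : l₀.filter (ex u Q) = q := congrArg Prod.snd hf₀
    rw [← hq] at hx
    exact (List.mem_filter.1 hx).2
  have hpf : ∀ x ∈ p, ex u Q x = false ∧ x ≠ m := by
    intro x hx
    have hq : l₀.filter (ex u Q) = q := congrArg Prod.snd hf₀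
    have hp : (l₀.filter (fun x => !ex u Q x)).filter
        (nq (mr u Q ((l₀.filter (ex u Q)).headD w))) = p := congrArg Prod.fst hf₀
    rw [hq, ← he, ← hm] at hp
    rw [← hp] at hx
    obtain ⟨h1, h2⟩ := List.mem_filter.1 hx
    obtain ⟨h3, h4⟩ := List.mem_filter.1 h1
    refine ⟨by simpa using h4, (nq_iff _ _).1 h2⟩
  have hpsub : ∀ x ∈ p, x ∈ l₀ := by
    intro x hx
    rcases hpart l₀ hl₀ hf₀ with h | h
    · rw [h]; simp [hx]
    · rw [h]; simp [hx]
  have hqsub : ∀ x ∈ q, x ∈ l₀ := by
    intro x hx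
    rcases hpart l₀ hl₀ hf₀ with h | h
    · rw [h]; simp [hx]
    · rw [h]; simp [hx]
  have heex : ex u Q e = true := by
    rw [he]
    cases q with
    | nil => exact (ex_iff u Q w).2 hex
    | cons b q => exact hqf b (by simp)
  have hemem : e ∈ l₀ ++ [w] := by
    rw [he]
    cases q with
    | nil => simp
    | cons b q =>
      rw [List.mem_append]
      exact Or.inl (hqsub b (by simp))
  have headm : e ∈ adm L C := by
    rcases List.mem_append.1 hemem with h | h
    · exact hl₀.1.2 e h
    · rw [List.mem_singleton.1 h]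
      exact hw
  have hege : u + ind Q ≤ e := hge l₀ hl₀ e hemem
  have hmge : u + ind Q ≤ m := by
    intro i
    have h1 := hege i
    show u i + ind Q i ≤ mr u Q e i
    unfold mr ind
    by_cases hi : i ∈ Q
    · rw [if_pos hi, if_pos hi]
      have h2 : u i + ind Q i ≤ e i := h1
      unfold ind at h2
      rw [if_pos hi] at h2
      exact h2
    · rw [if_neg hi, if_neg hi]
      exact le_rfl
  have hum : u ≠ m := by
    obtain ⟨i, hi⟩ := hQ
    intro h
    have h1 := hmge i
    rw [← h] at h1
    have h2 : u i + ind Q i ≤ u i := h1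
    unfold ind at h2
    rw [if_pos hi] at h2
    omega
  have hmex : ex u Q m = false := by
    rw [← Bool.not_eq_true, ex_iff]
    rintro ⟨i, hi, h1⟩
    have h2 : m i = u i := if_neg hi
    omega
  -- the chain conditions
  obtain ⟨t, ht⟩ : ∃ t, q ++ [w] = e :: t := by
    rw [he]
    cases q with
    | nil => exact ⟨[], rfl⟩
    | cons b q => exact ⟨q ++ [w], rfl⟩
  obtain ⟨s, x, hsx⟩ : ∃ s x, u :: p = s ++ [x] := by
    refine ⟨(u :: p).dropLast, (u :: p).getLast (by simp), ?_⟩
    exact (List.dropLast_append_getLast _).symm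
  have hxmem : x ∈ u :: p := by
    rw [hsx]
    simp
  have hx1 : ∀ i, i ∉ Q → x i = u i := by
    intro i hi
    rcases List.mem_cons.1 hxmem with h | h
    · rw [h]
    · have h1 := (hpf x h).1
      rw [← Bool.not_eq_true, ex_iff] at h1
      push Not at h1
      have h2 := hge l₀ hl₀ x (by simp [hpsub x h]) i
      have h3 : u i + ind Q i ≤ x i := h2
      have h4 := h1 i hi
      omega
  have hx2 : x ≠ m := by
    rcases List.mem_cons.1 hxmem with h | h
    · rw [h]
      exact hum
    · exact (hpf x h).2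
  have hch0 : List.IsChain stp (u :: ((p ++ q) ++ [w])) ↔
      List.IsChain stp (u :: p) ∧ stp x e ∧ List.IsChain stp (e :: t) := by
    have h1 : u :: ((p ++ q) ++ [w]) = s ++ x :: e :: t := by
      rw [List.append_assoc, ← List.cons_append, hsx, ht]
      simp
    rw [h1, List.isChain_append_cons_cons, hsx]
  have hch1 : List.IsChain stp (u :: ((p ++ m :: q) ++ [w])) ↔
      List.IsChain stp (u :: p) ∧ stp x m ∧ stp m e ∧ List.IsChain stp (e :: t) := by
    have h1 : u :: ((p ++ m :: q) ++ [w]) = s ++ x :: m :: e :: t := by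
      rw [List.append_assoc, ← List.cons_append, hsx, List.cons_append, ht]
      simp
    rw [h1, List.isChain_append_cons_cons, hsx, List.isChain_cons_cons]
  have hstep := step_iff hx1 heex hx2
  have hiff : List.IsChain stp (u :: ((p ++ q) ++ [w])) ↔
      List.IsChain stp (u :: ((p ++ m :: q) ++ [w])) := by
    rw [hch0, hch1, hstep]
    tauto
  have hboth : List.IsChain stp (u :: ((p ++ q) ++ [w])) ∧
      List.IsChain stp (u :: ((p ++ m :: q) ++ [w])) := by
    have h0 := hl₀.1.1
    rcases hpart l₀ hl₀ hf₀ with h | h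
    · rw [h] at h0
      exact ⟨h0, hiff.1 h0⟩
    · rw [h] at h0
      exact ⟨hiff.2 h0, h0⟩
  have hT0 : p ++ q ∈ S := by
    refine ⟨⟨hboth.1, ?_⟩, hhead _ ?_⟩
    · intro v hv
      rcases List.mem_append.1 hv with h | h
      · exact hl₀.1.2 v (hpsub v h)
      · exact hl₀.1.2 v (hqsub v h)
    · intro y hy
      apply hge l₀ hl₀
      rw [List.mem_append, List.mem_append] at hy
      rw [List.mem_append]
      rcases hy with (h | h) | h
      · exact Or.inl (hpsub y h)
      · exact Or.inl (hqsub y h)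
      · exact Or.inr h
  have hT1 : p ++ m :: q ∈ S := by
    refine ⟨⟨hboth.2, ?_⟩, hhead _ ?_⟩
    · intro v hv
      rcases List.mem_append.1 hv with h | h
      · exact hl₀.1.2 v (hpsub v h)
      · rcases List.mem_cons.1 h with h | h
        · rw [h]
          exact mr_adm hL hC hz headm
        · exact hl₀.1.2 v (hqsub v h)
    · intro y hy
      rw [List.mem_append, List.mem_append, List.mem_cons] at hy
      rcases hy with (h | h | h) | h
      · exact hge l₀ hl₀ y (by simp [hpsub y h])
      · rw [h]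
        exact hmge
      · exact hge l₀ hl₀ y (by simp [hqsub y h])
      · exact hge l₀ hl₀ y (by rw [List.mem_append]; exact Or.inr h)
  have hq1 : q.filter (ex u Q) = q := List.filter_eq_self.2 hqf
  have hq2 : q.filter (fun x => !ex u Q x) = [] := by
    rw [List.filter_eq_nil_iff]
    intro y hy
    rw [hqf y hy]
    simp
  have hp1 : p.filter (ex u Q) = [] := by
    rw [List.filter_eq_nil_iff]
    intro y hy
    rw [(hpf y hy).1]
    simp
  have hp2 : p.filter (fun x => !ex u Q x) = p := by
    rw [List.filter_eq_self]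
    intro y hy
    rw [(hpf y hy).1]
    rfl
  have hp3 : p.filter (nq m) = p := by
    rw [List.filter_eq_self]
    intro y hy
    exact (nq_iff _ _).2 (hpf y hy).2
  have hF0 : fv u w Q (p ++ q) = (p, q) := by
    unfold fv
    rw [List.filter_append, List.filter_append, hp1, hq1, hp2, hq2, List.nil_append,
      List.append_nil, ← he, ← hm, hp3]
  have hF1 : fv u w Q (p ++ m :: q) = (p, q) := by
    unfold fv
    rw [List.filter_append, List.filter_append, hp1, hp2, List.nil_append,
      List.filter_cons_of_neg (by rw [hmex]; simp), hq1,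
      List.filter_cons_of_pos (by rw [hmex]; rfl), hq2, ← he, ← hm, List.filter_append, hp3,
      List.filter_cons_of_neg (nq_self m), List.filter_nil, List.append_nil]
  have hset : {l | l ∈ S ∧ fv u w Q l = (p, q)} = ({p ++ q, p ++ m :: q} : Set (List (ι → ℕ))) := by
    ext l
    constructor
    · rintro ⟨h1, h2⟩
      exact hpart l h1 h2
    · rintro (h | h)
      · rw [h]
        exact ⟨hT0, hF0⟩
      · rw [Set.mem_singleton_iff.1 h]
        exact ⟨hT1, hF1⟩
  rw [hset]
  exact ex_pair (sign_sq p.length) (D_erase p q m (hnd _ hT1)) k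

end Pool.Agent.P8H72.MH
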